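import Pool.Agent.Helper55.CF.Goals

set_option autoImplicit false

/-!
# Packet CORE of MP_b612a6_ag: `G_MOM → G_SER → G_ODE → G_CORE`
-/

open MeasureTheory Complex
open scoped ContDiff ComplexConjugate Manifold

noncomputable section
namespace CF55.Core51

open CF55

/-! ## geometric bounds -/

def GB (c : ℕ → ℂ) : Prop := ∃ A B : ℝ, 0 ≤ A ∧ 0 ≤ B ∧ ∀ k, ‖c k‖ ≤ A * B ^ k

theorem GB.of {c : ℕ → ℂ} (h : ∃ A B : ℝ, ∀ k : ℕ, ‖c k‖ ≤ A * B ^ k) : GB c := by
  obtain ⟨A, B, h⟩ := h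
  refine ⟨|A|, |B|, abs_nonneg _, abs_nonneg _, fun k => (h k).trans ?_⟩
  calc A * B ^ k ≤ |A * B ^ k| := le_abs_self _
    _ = |A| * |B| ^ k := by rw [abs_mul, abs_pow]

theorem GB.mul {c d : ℕ → ℂ} (hc : GB c) (hd : GB d) : GB (fun k => c k * d k) := by
  obtain ⟨A, B, hA, hB, h⟩ := hc
  obtain ⟨A', B', hA', hB', h'⟩ := hd
  refine ⟨A * A', B * B', by positivity, by positivity, fun k => ?_⟩
  rw [norm_mul, mul_pow]
  calc ‖c k‖ * ‖d k‖ ≤ (A * B ^ k) * (A' * B' ^ k) :=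
        mul_le_mul (h k) (h' k) (norm_nonneg _) (by positivity)
    _ = A * A' * (B ^ k * B' ^ k) := by ring

theorem GB.add {c d : ℕ → ℂ} (hc : GB c) (hd : GB d) : GB (fun k => c k + d k) := by
  obtain ⟨A, B, hA, hB, h⟩ := hc
  obtain ⟨A', B', hA', hB', h'⟩ := hd
  refine ⟨A + A', max B B', by positivity, le_max_of_le_left hB, fun k => ?_⟩
  have h1 : B ^ k ≤ max B B' ^ k := pow_le_pow_left₀ hB (le_max_left _ _) k
  have h2 : B' ^ k ≤ max B B' ^ k := pow_le_pow_left₀ hB' (le_max_right _ _) k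
  calc ‖c k + d k‖ ≤ ‖c k‖ + ‖d k‖ := norm_add_le _ _
    _ ≤ A * B ^ k + A' * B' ^ k := add_le_add (h k) (h' k)
    _ ≤ A * max B B' ^ k + A' * max B B' ^ k :=
        add_le_add (mul_le_mul_of_nonneg_left h1 hA) (mul_le_mul_of_nonneg_left h2 hA')
    _ = (A + A') * max B B' ^ k := by ring

theorem GB.const (z : ℂ) : GB (fun _ => z) :=
  ⟨‖z‖, 1, norm_nonneg _, zero_le_one, fun k => by rw [one_pow, mul_one]⟩

theorem GB.sum {ι : Type} (s : Finset ι) (c : ι → ℕ → ℂ) (h : ∀ i ∈ s, GB (c i)) :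
    GB (fun k => ∑ i ∈ s, c i k) := by
  classical
  induction s using Finset.induction_on with
  | empty => simpa using GB.const 0
  | insert a s ha ih =>
    have h1 := (h a (Finset.mem_insert_self _ _)).add
      (ih fun i hi => h i (Finset.mem_insert_of_mem hi))
    simpa [Finset.sum_insert ha] using h1

theorem GB.nat : GB (fun k => (k : ℂ)) := by
  refine ⟨1, 2, zero_le_one, by norm_num, fun k => ?_⟩
  rw [Complex.norm_natCast, one_mul]
  exact_mod_cast Nat.lt_two_pow_self.le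

theorem GB.pow {c : ℕ → ℂ} (hc : GB c) (l : ℕ) : GB (fun k => c k ^ l) := by
  induction l with
  | zero => simpa using GB.const 1
  | succ l ih => simpa [pow_succ] using ih.mul hc

theorem GB.shift {c : ℕ → ℂ} (hc : GB c) : GB (fun k => c (k + 1)) := by
  obtain ⟨A, B, hA, hB, h⟩ := hc
  refine ⟨A * B, B, by positivity, hB, fun k => (h (k + 1)).trans_eq ?_⟩
  ring

theorem GB.poly (q : Polynomial ℂ) : GB (fun k => q.eval (k : ℂ)) := by
  have : (fun k : ℕ => q.eval (k : ℂ)) =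
      fun k : ℕ => ∑ i ∈ Finset.range (q.natDegree + 1), q.coeff i * (k : ℂ) ^ i := by
    funext k
    exact Polynomial.eval_eq_sum_range _
  rw [this]
  exact GB.sum _ _ fun i _ => (GB.const _).mul (GB.nat.pow i)

theorem GB.summable {c : ℕ → ℂ} (hc : GB c) (R : ℝ) :
    Summable (fun k : ℕ => ((-R : ℝ) : ℂ) ^ k / (k.factorial : ℂ) * c k) := by
  obtain ⟨A, B, hA, hB, h⟩ := hc
  refine Summable.of_norm_bounded (g := fun k : ℕ => A * ((|R| * B) ^ k / k.factorial))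
    ((Real.summable_pow_div_factorial _).mul_left A) (fun k => ?_)
  rw [norm_mul, norm_div, norm_pow, Complex.norm_real, Complex.norm_natCast, norm_neg,
    Real.norm_eq_abs, mul_pow]
  calc |R| ^ k / (k.factorial : ℝ) * ‖c k‖ ≤ |R| ^ k / (k.factorial : ℝ) * (A * B ^ k) :=
        mul_le_mul_of_nonneg_left (h k) (by positivity)
    _ = _ := by ring

theorem Ser_sum {ι : Type} (s : Finset ι) (c : ι → ℕ → ℂ) (h : ∀ i ∈ s, GB (c i)) (R : ℝ) :
    Ser (fun k => ∑ i ∈ s, c i k) R = ∑ i ∈ s, Ser (c i) R := by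
  unfold Ser
  simp_rw [Finset.mul_sum]
  exact Summable.tsum_finsetSum fun i hi => (h i hi).summable R

theorem Ser_zero_add {c : ℕ → ℂ} (hc : GB c) (R : ℝ) :
    Ser c R = c 0 + ∑' k : ℕ, ((-R : ℝ) : ℂ) ^ (k + 1) / ((k + 1).factorial : ℂ) * c (k + 1) := by
  unfold Ser
  rw [(hc.summable R).tsum_eq_zero_add]
  simp

theorem fact_succ (k : ℕ) : (((k + 1).factorial : ℕ) : ℂ) = ((k : ℂ) + 1) * (k.factorial : ℂ) := by
  rw [Nat.factorial_succ]; push_cast; ring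

theorem succ_ne (k : ℕ) : ((k : ℂ) + 1) ≠ 0 := Nat.cast_add_one_ne_zero k

theorem Ser_shift1 {c : ℕ → ℂ} (hc : GB c) (l : ℕ) (R : ℝ) (hR : R ≠ 0) :
    Ser (fun k => (k : ℂ) ^ l * c (k + 1)) R =
      -(1 / (R : ℂ)) * Ser (fun n => (n : ℂ) * ((n : ℂ) - 1) ^ l * c n) R := by
  have hR' : (R : ℂ) ≠ 0 := by exact_mod_cast hR
  have h1 : GB (fun n => (n : ℂ) * ((n : ℂ) - 1) ^ l * c n) :=
    (GB.nat.mul ((by simpa [sub_eq_add_neg] using GB.nat.add (GB.const (-1)) :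
      GB (fun n : ℕ => (n : ℂ) - 1)).pow l)).mul hc
  rw [Ser_zero_add h1 R]
  have h2 : ∀ k : ℕ, ((-R : ℝ) : ℂ) ^ (k + 1) / ((k + 1).factorial : ℂ) *
      (((k + 1 : ℕ) : ℂ) * (((k + 1 : ℕ) : ℂ) - 1) ^ l * c (k + 1)) =
      (-(R : ℂ)) * (((-R : ℝ) : ℂ) ^ k / (k.factorial : ℂ) * ((k : ℂ) ^ l * c (k + 1))) := by
    intro k
    have hf : (k.factorial : ℂ) ≠ 0 := by exact_mod_cast Nat.factorial_ne_zero k
    have hs := succ_ne k
    rw [fact_succ k]
    push_cast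
    rw [add_sub_cancel_right, pow_succ]
    field_simp
  simp_rw [h2]
  rw [tsum_mul_left]
  unfold Ser
  simp only [CharP.cast_eq_zero, zero_mul, zero_add]
  field_simp

theorem Ser_shift2 {c : ℕ → ℂ} (hc : GB c) (l : ℕ) (R : ℝ) (hR : R ≠ 0) :
    Ser (fun k => -((k : ℂ) + 1)⁻¹ * ((k : ℂ) ^ l * c (k + 1))) R =
      1 / (R : ℂ) * (Ser (fun n => ((n : ℂ) - 1) ^ l * c n) R - (-1) ^ l * c 0) := by
  have hR' : (R : ℂ) ≠ 0 := by exact_mod_cast hR
  have h1 : GB (fun n => ((n : ℂ) - 1) ^ l * c n) :=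
    ((by simpa [sub_eq_add_neg] using GB.nat.add (GB.const (-1)) :
      GB (fun n : ℕ => (n : ℂ) - 1)).pow l).mul hc
  rw [Ser_zero_add h1 R]
  have h2 : ∀ k : ℕ, ((-R : ℝ) : ℂ) ^ (k + 1) / ((k + 1).factorial : ℂ) *
      ((((k + 1 : ℕ) : ℂ) - 1) ^ l * c (k + 1)) =
      (R : ℂ) * (((-R : ℝ) : ℂ) ^ k / (k.factorial : ℂ) *
        (-((k : ℂ) + 1)⁻¹ * ((k : ℂ) ^ l * c (k + 1)))) := by
    intro k
    have hf : (k.factorial : ℂ) ≠ 0 := by exact_mod_cast Nat.factorial_ne_zero k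
    have hs := succ_ne k
    rw [fact_succ k]
    push_cast
    rw [add_sub_cancel_right, pow_succ]
    field_simp
  simp_rw [h2]
  rw [tsum_mul_left]
  unfold Ser
  simp only [CharP.cast_eq_zero, zero_sub]
  field_simp
  ring

theorem Ser_geom (t : ℝ) : Ser (fun k => (t : ℂ) ^ k) 1 = cexp (-(t : ℂ)) := by
  unfold Ser
  rw [Complex.exp_eq_exp_ℂ, NormedSpace.exp_eq_tsum_div]
  refine tsum_congr fun k => ?_
  push_cast
  rw [show (-(t : ℂ)) = (-1) * t by ring, mul_pow]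
  ring

theorem GB.geom (t : ℝ) : GB (fun k => (t : ℂ) ^ k) :=
  ⟨1, |t|, zero_le_one, abs_nonneg _, fun k => by
    rw [norm_pow, Complex.norm_real, Real.norm_eq_abs, one_mul]⟩

theorem Ser_geom1 (t : ℝ) :
    Ser (fun k => (-((k : ℂ) + 1)) * (t : ℂ) ^ k) 1 = ((t : ℂ) - 1) * cexp (-(t : ℂ)) := by
  have e1 : Ser (fun k => (k : ℂ) * (t : ℂ) ^ k) 1 = -(t : ℂ) * cexp (-(t : ℂ)) := by
    rw [Ser_zero_add (GB.nat.mul (GB.geom t)) 1, ← Ser_geom t]
    unfold Ser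
    rw [← tsum_mul_left]
    simp only [CharP.cast_eq_zero, zero_mul, zero_add]
    refine tsum_congr fun k => ?_
    have hf : (k.factorial : ℂ) ≠ 0 := by exact_mod_cast Nat.factorial_ne_zero k
    have hs := succ_ne k
    rw [fact_succ k]
    push_cast
    rw [pow_succ, pow_succ (t : ℂ)]
    field_simp
  have e2 : Ser (fun k => (-((k : ℂ) + 1)) * (t : ℂ) ^ k) 1 =
      -Ser (fun k => (k : ℂ) * (t : ℂ) ^ k) 1 - Ser (fun k => (t : ℂ) ^ k) 1 := by
    have s1 := (GB.nat.mul (GB.geom t)).summable 1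
    have s2 := (GB.geom t).summable 1
    unfold Ser
    rw [← tsum_neg, ← Summable.tsum_sub s1.neg s2]
    refine tsum_congr fun k => ?_
    ring
  rw [e2, e1, Ser_geom]
  ring

/-! ## logarithmic bounds -/

theorem log2_pos : 0 < Real.log 2 := Real.log_pos (by norm_num)

theorem log_pos' {R : ℝ} (hR : 2 ≤ R) : 0 < Real.log R := Real.log_pos (by linarith)

theorem logpow (k j : ℕ) {R : ℝ} (hR : 2 ≤ R) :
    Real.log R ^ k ≤ (Real.log 2)⁻¹ ^ j * Real.log R ^ (k + j) := by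
  have h2 := log2_pos
  have h1 : Real.log 2 ≤ Real.log R := Real.log_le_log (by norm_num) hR
  have h3 : 1 ≤ (Real.log 2)⁻¹ * Real.log R := by
    rw [inv_mul_eq_div, le_div_iff₀ h2]; linarith
  have h4 : 1 ≤ ((Real.log 2)⁻¹ * Real.log R) ^ j := one_le_pow₀ h3
  have h5 : 0 ≤ Real.log R ^ k := pow_nonneg (h2.le.trans h1) k
  calc Real.log R ^ k = Real.log R ^ k * 1 := (mul_one _).symm
    _ ≤ Real.log R ^ k * ((Real.log 2)⁻¹ * Real.log R) ^ j := mul_le_mul_of_nonneg_left h4 h5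
    _ = _ := by rw [mul_pow, pow_add]; ring

def Bd (n : ℕ) (Φ : ℝ → ℝ) : Prop :=
  ∃ (C : ℝ) (k : ℕ), 0 ≤ C ∧ ∀ R : ℝ, 2 ≤ R → Φ R ≤ C * Real.log R ^ k / R ^ n

theorem Bd.of {n : ℕ} {Φ : ℝ → ℝ}
    (h : ∃ (C : ℝ) (k : ℕ), ∀ R : ℝ, 2 ≤ R → Φ R ≤ C * Real.log R ^ k / R ^ n) : Bd n Φ := by
  obtain ⟨C, k, h⟩ := h
  refine ⟨|C|, k, abs_nonneg _, fun R hR => (h R hR).trans ?_⟩
  have h1 := log_pos' hR
  have hR0 : 0 < R := by linarith
  gcongr
  exact le_abs_self C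

theorem Bd.mono {n : ℕ} {Φ Ψ : ℝ → ℝ} {c : ℝ} (hc : 0 ≤ c) (h : Bd n Ψ)
    (hle : ∀ R, 2 ≤ R → Φ R ≤ c * Ψ R) : Bd n Φ := by
  obtain ⟨C, k, hC, h⟩ := h
  refine ⟨c * C, k, by positivity, fun R hR => (hle R hR).trans ?_⟩
  calc c * Ψ R ≤ c * (C * Real.log R ^ k / R ^ n) := mul_le_mul_of_nonneg_left (h R hR) hc
    _ = _ := by ring

theorem Bd.common {n m : ℕ} {Φ Ψ : ℝ → ℝ} (h : Bd n Φ) (h' : Bd m Ψ) :
    ∃ (C : ℝ) (k : ℕ), 0 ≤ C ∧ ∀ R : ℝ, 2 ≤ R → Φ R ≤ C * Real.log R ^ k / R ^ n ∧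
      Ψ R ≤ C * Real.log R ^ k / R ^ m := by
  obtain ⟨C, k, hC, h⟩ := h
  obtain ⟨C', k', hC', h'⟩ := h'
  have h2 := log2_pos
  refine ⟨C * (Real.log 2)⁻¹ ^ k' + C' * (Real.log 2)⁻¹ ^ k, k + k', by positivity,
    fun R hR => ?_⟩
  have h1 := log_pos' hR
  have hR0 : 0 < R := by linarith
  have a1 := logpow k k' hR
  have a2 := logpow k' k hR
  rw [add_comm k' k] at a2
  constructor
  · refine (h R hR).trans (div_le_div_of_nonneg_right ?_ (by positivity))
    calc C * Real.log R ^ k ≤ C * ((Real.log 2)⁻¹ ^ k' * Real.log R ^ (k + k')) := by gcongr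
      _ ≤ C * ((Real.log 2)⁻¹ ^ k' * Real.log R ^ (k + k')) +
          C' * (Real.log 2)⁻¹ ^ k * Real.log R ^ (k + k') := le_add_of_nonneg_right (by positivity)
      _ = _ := by ring
  · refine (h' R hR).trans (div_le_div_of_nonneg_right ?_ (by positivity))
    calc C' * Real.log R ^ k' ≤ C' * ((Real.log 2)⁻¹ ^ k * Real.log R ^ (k + k')) := by gcongr
      _ ≤ C' * ((Real.log 2)⁻¹ ^ k * Real.log R ^ (k + k')) +
          C * (Real.log 2)⁻¹ ^ k' * Real.log R ^ (k + k') := le_add_of_nonneg_right (by positivity)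
      _ = _ := by ring

theorem Bd.add {n : ℕ} {Φ Ψ : ℝ → ℝ} (h : Bd n Φ) (h' : Bd n Ψ) : Bd n (fun R => Φ R + Ψ R) := by
  obtain ⟨C, k, hC, h⟩ := Bd.common h h'
  refine ⟨2 * C, k, by positivity, fun R hR => ?_⟩
  have := h R hR
  calc Φ R + Ψ R ≤ C * Real.log R ^ k / R ^ n + C * Real.log R ^ k / R ^ n :=
        add_le_add this.1 this.2
    _ = _ := by ring

theorem Bd.sum {n : ℕ} {ι : Type} (s : Finset ι) (Φ : ι → ℝ → ℝ) (h : ∀ i ∈ s, Bd n (Φ i)) :
    Bd n (fun R => ∑ i ∈ s, Φ i R) := by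
  classical
  induction s using Finset.induction_on with
  | empty => exact ⟨0, 0, le_rfl, fun R _ => by simp⟩
  | insert a s ha ih =>
    have h1 := (h a (Finset.mem_insert_self _ _)).add
      (ih fun i hi => h i (Finset.mem_insert_of_mem hi))
    simpa [Finset.sum_insert ha] using h1

/-! ## polynomial times exponential -/

theorem polyexp (q : Polynomial ℂ) : ∃ C : ℝ, 0 ≤ C ∧ ∀ t : ℝ, 0 ≤ t →
    ‖q.eval (t : ℂ)‖ * Real.exp (-t) ≤ C * Real.exp (-(t / 2)) := by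
  refine ⟨∑ i ∈ Finset.range (q.natDegree + 1), ‖q.coeff i‖ * ((i.factorial : ℝ) * 2 ^ i),
    Finset.sum_nonneg fun i _ => by positivity, fun t ht => ?_⟩
  have h1 : ‖q.eval (t : ℂ)‖ ≤ ∑ i ∈ Finset.range (q.natDegree + 1), ‖q.coeff i‖ * t ^ i := by
    rw [Polynomial.eval_eq_sum_range]
    refine (norm_sum_le _ _).trans (Finset.sum_le_sum fun i _ => ?_)
    rw [norm_mul, norm_pow, Complex.norm_real, Real.norm_eq_abs, abs_of_nonneg ht]
  have h2 : ∀ i : ℕ, t ^ i ≤ (i.factorial : ℝ) * 2 ^ i * Real.exp (t / 2) := by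
    intro i
    have := Real.pow_div_factorial_le_exp (t / 2) (by positivity) i
    rw [div_le_iff₀ (by positivity), div_pow, div_le_iff₀ (by positivity)] at this
    linarith
  have h3 : Real.exp (-t) = Real.exp (-(t / 2)) * Real.exp (-(t / 2)) := by
    rw [← Real.exp_add]; congr 1; ring
  have h4 : Real.exp (t / 2) * Real.exp (-(t / 2)) = 1 := by
    rw [← Real.exp_add]; simp
  calc ‖q.eval (t : ℂ)‖ * Real.exp (-t)
      ≤ (∑ i ∈ Finset.range (q.natDegree + 1), ‖q.coeff i‖ * t ^ i) * Real.exp (-t) := by gcongr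
    _ ≤ (∑ i ∈ Finset.range (q.natDegree + 1), ‖q.coeff i‖ *
          ((i.factorial : ℝ) * 2 ^ i * Real.exp (t / 2))) * Real.exp (-t) := by
        gcongr with i _
        exact h2 i
    _ = (∑ i ∈ Finset.range (q.natDegree + 1), ‖q.coeff i‖ * ((i.factorial : ℝ) * 2 ^ i)) *
          (Real.exp (t / 2) * Real.exp (-(t / 2))) * Real.exp (-(t / 2)) := by
        rw [h3, Finset.sum_mul, Finset.sum_mul, Finset.sum_mul]
        refine Finset.sum_congr rfl fun i _ => ?_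
        ring
    _ = _ := by rw [h4, mul_one]

/-! ## test functions -/

theorem integrable_expmul (p : MvPolynomial (Fin 5) ℂ) (c : ℝ) {g : X5 → ℝ} (hg : Continuous g)
    (hc : HasCompactSupport g) :
    Integrable (fun x : X5 => Real.exp (-(c * ‖MvPolynomial.eval x p‖ ^ 2)) * g x) := by
  have hp : Continuous (fun x : X5 => MvPolynomial.eval x p) := MvPolynomial.continuous_eval p
  refine Continuous.integrable_of_hasCompactSupport (by fun_prop) ?_
  exact hc.mul_left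

theorem serbound (hS : G_SER) (p : MvPolynomial (Fin 5) ℂ) (r : Polynomial ℂ) (ψ : X5 → ℂ)
    (hψ : Continuous ψ) (hc : HasCompactSupport ψ) :
    ∃ C : ℝ, 0 ≤ C ∧ ∀ R : ℝ, 0 ≤ R → ‖Ser (fun k => r.eval (k : ℂ) * mu p ψ k) R‖ ≤
      C * ∫ x, Real.exp (-(R / 2 * ‖MvPolynomial.eval x p‖ ^ 2)) * ‖ψ x‖ := by
  obtain ⟨rh, -, h⟩ := hS r
  obtain ⟨C, hC, hb⟩ := polyexp rh
  refine ⟨C, hC, fun R hR => ?_⟩
  rw [(h p ψ hψ hc).2 R, ← integral_const_mul]
  refine norm_integral_le_of_norm_le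
    ((integrable_expmul p (R / 2) hψ.norm hc.norm).const_mul C) (Filter.Eventually.of_forall ?_)
  intro x
  have ht : 0 ≤ R * ‖MvPolynomial.eval x p‖ ^ 2 := by positivity
  have h1 := hb _ ht
  rw [norm_mul, norm_mul, Complex.norm_exp]
  have e1 : (-((R * ‖MvPolynomial.eval x p‖ ^ 2 : ℝ) : ℂ)).re =
      -(R * ‖MvPolynomial.eval x p‖ ^ 2) := by
    rw [Complex.neg_re, Complex.ofReal_re]
  rw [e1]
  have e2 : R * ‖MvPolynomial.eval x p‖ ^ 2 / 2 = R / 2 * ‖MvPolynomial.eval x p‖ ^ 2 := by ring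
  rw [e2] at h1
  calc _ ≤ C * Real.exp (-(R / 2 * ‖MvPolynomial.eval x p‖ ^ 2)) * ‖ψ x‖ :=
        mul_le_mul_of_nonneg_right h1 (norm_nonneg _)
    _ = _ := by ring

theorem mu_GB (hS : G_SER) (p : MvPolynomial (Fin 5) ℂ) (ψ : X5 → ℂ) (hψ : Continuous ψ)
    (hc : HasCompactSupport ψ) : GB (mu p ψ) := by
  obtain ⟨rh, -, h⟩ := hS 1
  exact GB.of (h p ψ hψ hc).1

theorem Ser_eq0 (hS : G_SER) (p : MvPolynomial (Fin 5) ℂ) (ψ : X5 → ℂ) (hψ : Continuous ψ)
    (hc : HasCompactSupport ψ) (R : ℝ) : Ser (mu p ψ) R =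
      ∫ x, cexp (-((R * ‖MvPolynomial.eval x p‖ ^ 2 : ℝ) : ℂ)) * ψ x := by
  obtain ⟨rh, h0, h⟩ := hS 1
  have h1 := (h p ψ hψ hc).2 R
  simp only [Polynomial.eval_one, one_mul] at h1 h0
  have h2 : ∀ t : ℝ, rh.eval (t : ℂ) = 1 := by
    intro t
    have := h0 t
    rw [Ser_geom] at this
    have h3 := Complex.exp_ne_zero (-(t : ℂ))
    exact (mul_right_cancel₀ h3 (by rw [one_mul]; exact this)).symm
  have h4 : Ser (mu p ψ) R = Ser (fun k => mu p ψ k) R := rfl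
  rw [h4, h1]
  refine integral_congr_ae (Filter.Eventually.of_forall fun x => ?_)
  simp only [h2, one_mul]

theorem Ser_eq1 (hS : G_SER) (p : MvPolynomial (Fin 5) ℂ) (ψ : X5 → ℂ) (hψ : Continuous ψ)
    (hc : HasCompactSupport ψ) (R : ℝ) : Ser (fun k => (-((k : ℂ) + 1)) * mu p ψ k) R =
      ∫ x, (((R * ‖MvPolynomial.eval x p‖ ^ 2 : ℝ) : ℂ) - 1) *
        cexp (-((R * ‖MvPolynomial.eval x p‖ ^ 2 : ℝ) : ℂ)) * ψ x := by
  obtain ⟨rh, h0, h⟩ := hS (-(Polynomial.X + 1))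
  have h1 := (h p ψ hψ hc).2 R
  simp only [Polynomial.eval_neg, Polynomial.eval_add, Polynomial.eval_X, Polynomial.eval_one]
    at h1 h0
  have h2 : ∀ t : ℝ, rh.eval (t : ℂ) = (t : ℂ) - 1 := by
    intro t
    have := h0 t
    rw [Ser_geom1] at this
    have h3 := Complex.exp_ne_zero (-(t : ℂ))
    exact (mul_right_cancel₀ h3 this).symm
  rw [h1]
  refine integral_congr_ae (Filter.Eventually.of_forall fun x => ?_)
  simp only [h2]

theorem Ser_real0 (hS : G_SER) (p : MvPolynomial (Fin 5) ℂ) (θ : X5 → ℝ) (hθ : Continuous θ)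
    (hc : HasCompactSupport θ) (R : ℝ) : ‖Ser (mu p (fun x => (θ x : ℂ))) R‖ =
      |∫ x, Real.exp (-(R * ‖MvPolynomial.eval x p‖ ^ 2)) * θ x| := by
  have hc' : HasCompactSupport (fun x => (θ x : ℂ)) :=
    hc.comp_left (g := fun y : ℝ => (y : ℂ)) Complex.ofReal_zero
  rw [Ser_eq0 hS p _ (by fun_prop) hc' R, ← Real.norm_eq_abs, ← Complex.norm_real,
    ← integral_complex_ofReal]
  congr 2
  funext x
  push_cast
  rfl

theorem Ser_real1 (hS : G_SER) (p : MvPolynomial (Fin 5) ℂ) (θ : X5 → ℝ) (hθ : Continuous θ)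
    (hc : HasCompactSupport θ) (R : ℝ) :
    ‖Ser (fun k => (-((k : ℂ) + 1)) * mu p (fun x => (θ x : ℂ)) k) R‖ =
      |∫ x, (R * ‖MvPolynomial.eval x p‖ ^ 2 - 1) *
        Real.exp (-(R * ‖MvPolynomial.eval x p‖ ^ 2)) * θ x| := by
  have hc' : HasCompactSupport (fun x => (θ x : ℂ)) :=
    hc.comp_left (g := fun y : ℝ => (y : ℂ)) Complex.ofReal_zero
  rw [Ser_eq1 hS p _ (by fun_prop) hc' R, ← Real.norm_eq_abs, ← Complex.norm_real,
    ← integral_complex_ofReal]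
  congr 2
  funext x
  push_cast
  rfl

theorem bump {U : Set X5} (hU : IsOpen U) {K : Set X5} (hK : IsCompact K) (hKU : K ⊆ U) :
    ∃ θ : X5 → ℝ, ContDiff ℝ ∞ θ ∧ HasCompactSupport θ ∧ tsupport θ ⊆ U ∧ (∀ x, 0 ≤ θ x) ∧
      ∀ x ∈ K, θ x = 1 := by
  obtain ⟨L, hL, hKL, hLU⟩ := exists_compact_between hK hU hKU
  obtain ⟨f, h1, h0, hf⟩ := exists_contMDiffMap_one_nhds_of_subset_interior (n := ⊤)
    𝓘(ℝ, X5) hK.isClosed hKL
  have hsupp : tsupport (fun x => f x) ⊆ L := by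
    refine closure_minimal (fun x hx => ?_) hL.isClosed
    by_contra hxL
    exact hx (h0 x hxL)
  refine ⟨fun x => f x, ?_, ?_, hsupp.trans hLU, fun x => (hf x).1, fun x hx =>
    h1.self_of_nhdsSet x hx⟩
  · exact f.contMDiff.contDiff
  · exact HasCompactSupport.of_support_subset_isCompact hL (subset_closure.trans hsupp)

/-- the bound at `R / 2` -/
theorem halfbound (hS : G_SER) (p : MvPolynomial (Fin 5) ℂ) (θ : X5 → ℝ) (hθ : Continuous θ)
    (hc : HasCompactSupport θ) (h0 : ∀ x, 0 ≤ θ x)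
    (h : Bd 1 (fun R => ‖Ser (mu p (fun x => (θ x : ℂ))) R‖)) :
    Bd 1 (fun R => ∫ x, Real.exp (-(R / 2 * ‖MvPolynomial.eval x p‖ ^ 2)) * θ x) := by
  obtain ⟨C, k, hC, h⟩ := h
  have hI : Integrable θ := hθ.integrable_of_hasCompactSupport hc
  have hI0 : 0 ≤ ∫ x, θ x := integral_nonneg h0
  have h2 := log2_pos
  refine ⟨2 * C + 4 * (∫ x, θ x) * (Real.log 2)⁻¹ ^ k, k, by positivity, fun R hR => ?_⟩
  have hR0 : 0 < R := by linarith
  have hlog := log_pos' hR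
  have hlog2 : Real.log 2 ≤ Real.log R := Real.log_le_log (by norm_num) hR
  rw [pow_one]
  rcases le_or_gt 4 R with h4 | h4
  · have h5 := h (R / 2) (by linarith)
    simp only [] at h5
    rw [Ser_real0 hS p θ hθ hc, pow_one] at h5
    have h6 : Real.log (R / 2) ^ k ≤ Real.log R ^ k :=
      pow_le_pow_left₀ (Real.log_nonneg (by linarith))
        (Real.log_le_log (by linarith) (by linarith)) k
    calc _ ≤ |∫ x, Real.exp (-(R / 2 * ‖MvPolynomial.eval x p‖ ^ 2)) * θ x| := le_abs_self _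
      _ ≤ C * Real.log (R / 2) ^ k / (R / 2) := h5
      _ ≤ C * Real.log R ^ k / (R / 2) := by gcongr
      _ = 2 * C * Real.log R ^ k / R := by field_simp
      _ ≤ _ := by
        refine div_le_div_of_nonneg_right ?_ hR0.le
        refine mul_le_mul_of_nonneg_right ?_ (by positivity)
        have : 0 ≤ 4 * (∫ x, θ x) * (Real.log 2)⁻¹ ^ k := by positivity
        linarith
  · have h5 : ∫ x, Real.exp (-(R / 2 * ‖MvPolynomial.eval x p‖ ^ 2)) * θ x ≤ ∫ x, θ x := by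
      refine integral_mono (integrable_expmul p (R / 2) hθ hc) hI fun x => ?_
      have : Real.exp (-(R / 2 * ‖MvPolynomial.eval x p‖ ^ 2)) ≤ 1 :=
        Real.exp_le_one_iff.mpr (by
          have : 0 ≤ R / 2 * ‖MvPolynomial.eval x p‖ ^ 2 := by positivity
          linarith)
      exact mul_le_of_le_one_left (h0 x) this
    have h6 : 1 ≤ (Real.log 2)⁻¹ ^ k * Real.log R ^ k := by
      rw [← mul_pow]
      refine one_le_pow₀ ?_
      rw [inv_mul_eq_div, le_div_iff₀ h2]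
      linarith
    have h7 : 1 ≤ 4 / R := by rw [le_div_iff₀ hR0]; linarith
    calc _ ≤ (∫ x, θ x) * 1 * 1 := by rw [mul_one, mul_one]; exact h5
      _ ≤ (∫ x, θ x) * ((Real.log 2)⁻¹ ^ k * Real.log R ^ k) * (4 / R) := by gcongr
      _ = (4 * (∫ x, θ x) * (Real.log 2)⁻¹ ^ k) * Real.log R ^ k / R := by ring
      _ ≤ _ := by
        refine div_le_div_of_nonneg_right ?_ hR0.le
        refine mul_le_mul_of_nonneg_right ?_ (by positivity)
        linarith

/-! ## the conjugate polynomial -/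

theorem eval_conj_map (b : Polynomial ℂ) (z : ℂ) :
    (b.map (starRingEnd ℂ)).eval z = conj (b.eval (conj z)) := by
  have h := Polynomial.eval₂_hom (p := b) (starRingEnd ℂ) (conj z)
  rw [Complex.conj_conj] at h
  rw [Polynomial.eval_map, h]

theorem eval_conj_nat (b : Polynomial ℂ) (k : ℕ) :
    (b.map (starRingEnd ℂ)).eval (k : ℂ) = conj (b.eval (k : ℂ)) := by
  rw [eval_conj_map, map_natCast]

theorem Bpoly (b : Polynomial ℂ) (hb0 : b ≠ 0) (hb : ∀ ρ : ℂ, b.IsRoot ρ → ρ.re ≤ -2) :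
    b * b.map (starRingEnd ℂ) ≠ 0 ∧
      (∀ ρ : ℂ, (b * b.map (starRingEnd ℂ)).IsRoot ρ → ρ.re ≤ -2) ∧
      ∀ k : ℕ, (b * b.map (starRingEnd ℂ)).eval (k : ℂ) = b.eval (k : ℂ) * conj (b.eval (k : ℂ)) := by
  refine ⟨mul_ne_zero hb0 ?_, fun ρ hρ => ?_, fun k => ?_⟩
  · rw [Ne, Polynomial.map_eq_zero]
    exact hb0
  · rw [Polynomial.IsRoot.def, Polynomial.eval_mul, mul_eq_zero] at hρ
    rcases hρ with h | h
    · exact hb ρ h
    · rw [eval_conj_map] at h
      have h1 : b.eval (conj ρ) = 0 := by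
        rwa [map_eq_zero] at h
      have := hb (conj ρ) h1
      rwa [Complex.conj_re] at this
  · rw [Polynomial.eval_mul, eval_conj_nat]

/-! ## the two steps -/

section
variable (hS : G_SER) (hO : G_ODE) (p u : MvPolynomial (Fin 5) ℂ) (b : Polynomial ℂ)
  (hb0 : b ≠ 0) (hb : ∀ ρ : ℂ, b.IsRoot ρ → ρ.re ≤ -2)
  (hm : ∀ ψ : X5 → ℂ, Test {x | MvPolynomial.eval x u ≠ 0} ψ →
      ∃ (N : ℕ) (ψs : ℕ → X5 → ℂ), (∀ l, Test {x | MvPolynomial.eval x u ≠ 0} (ψs l)) ∧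
        (∀ k : ℕ, ((k : ℂ) + 1) ^ 2 * (b.eval (k : ℂ) * conj (b.eval (k : ℂ))) * mu p ψ k =
          ∑ l ∈ Finset.range N, (k : ℂ) ^ l * mu p (ψs l) (k + 1)) ∧
        ∑ l ∈ Finset.range N, (-1 : ℂ) ^ l * mu p (ψs l) 0 = 0)
include hS hO hb0 hb hm

theorem step1 (ψ : X5 → ℂ) (hψ : Test {x | MvPolynomial.eval x u ≠ 0} ψ) :
    Bd 1 (fun R => ‖Ser (mu p ψ) R‖) := by
  obtain ⟨hB0, hB, hBk⟩ := Bpoly b hb0 hb
  obtain ⟨N, ψs, hψs, hrel, -⟩ := hm ψ hψ
  have hg := mu_GB hS p ψ hψ.1.continuous hψ.2.1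
  have hgs : ∀ l, GB (mu p (ψs l)) := fun l =>
    mu_GB hS p (ψs l) (hψs l).1.continuous (hψs l).2.1
  set q : Polynomial ℂ := (Polynomial.X + 1) ^ 2 * (b * b.map (starRingEnd ℂ)) with hq
  have hX : (Polynomial.X + 1 : Polynomial ℂ) ≠ 0 := by
    have := Polynomial.X_add_C_ne_zero (1 : ℂ)
    simpa using this
  have hqk : ∀ k : ℕ, q.eval (k : ℂ) * mu p ψ k =
      ∑ l ∈ Finset.range N, (k : ℂ) ^ l * mu p (ψs l) (k + 1) := by
    intro k
    rw [← hrel k, hq, Polynomial.eval_mul, hBk k]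
    simp only [Polynomial.eval_pow, Polynomial.eval_add, Polynomial.eval_X, Polynomial.eval_one]
  choose C hC hCb using fun l => serbound hS p (Polynomial.X * (Polynomial.X - 1) ^ l) (ψs l)
    (hψs l).1.continuous (hψs l).2.1
  have hgoal : ∃ (C : ℝ) (j : ℕ), ∀ R : ℝ, 2 ≤ R →
      ‖Ser (mu p ψ) R‖ ≤ C * Real.log R ^ j / R ^ 1 := by
    refine hO (mu p ψ) 1 q (mul_ne_zero (pow_ne_zero _ hX) hB0) ?_ ?_ ?_
    · intro ρ hρ
      rw [hq, Polynomial.IsRoot.def, Polynomial.eval_mul, mul_eq_zero] at hρ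
      rcases hρ with h | h
      · rw [Polynomial.eval_pow, sq_eq_zero_iff] at h
        simp only [Polynomial.eval_add, Polynomial.eval_X, Polynomial.eval_one] at h
        have : ρ = -1 := by linear_combination h
        rw [this]
        norm_num
      · have := hB ρ h
        push_cast
        linarith
    · obtain ⟨A, B, -, -, h⟩ := hg
      exact ⟨A, B, h⟩
    · refine ⟨∑ l ∈ Finset.range N, C l * ∫ x, ‖ψs l x‖, 0, fun R hR => ?_⟩
      have hR0 : 0 < R := by linarith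
      have e1 : Ser (fun k => q.eval (k : ℂ) * mu p ψ k) R =
          ∑ l ∈ Finset.range N, (-(1 / (R : ℂ)) *
            Ser (fun n => (Polynomial.X * (Polynomial.X - 1) ^ l : Polynomial ℂ).eval (n : ℂ) *
              mu p (ψs l) n) R) := by
        have : (fun k : ℕ => q.eval (k : ℂ) * mu p ψ k) =
            fun k : ℕ => ∑ l ∈ Finset.range N, (k : ℂ) ^ l * mu p (ψs l) (k + 1) := by
          funext k; exact hqk k
        rw [this, Ser_sum _ _ (fun l _ => (GB.nat.pow l).mul (hgs l).shift)]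
        refine Finset.sum_congr rfl fun l _ => ?_
        rw [Ser_shift1 (hgs l) l R hR0.ne']
        congr 2
        funext n
        simp
      rw [e1, pow_zero, mul_one, pow_one]
      refine (norm_sum_le _ _).trans ?_
      rw [Finset.sum_div]
      refine Finset.sum_le_sum fun l _ => ?_
      rw [norm_mul, norm_neg, norm_div, norm_one, Complex.norm_real, Real.norm_eq_abs,
        abs_of_pos hR0]
      have h1 := hCb l R hR0.le
      have hI : Integrable (fun x => ‖ψs l x‖) :=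
        ((hψs l).1.continuous.integrable_of_hasCompactSupport (hψs l).2.1).norm
      have h2 : ∫ x, Real.exp (-(R / 2 * ‖MvPolynomial.eval x p‖ ^ 2)) * ‖ψs l x‖ ≤
          ∫ x, ‖ψs l x‖ := by
        refine integral_mono (integrable_expmul p (R / 2) (hψs l).1.continuous.norm
          (hψs l).2.1.norm) hI fun x => ?_
        have : Real.exp (-(R / 2 * ‖MvPolynomial.eval x p‖ ^ 2)) ≤ 1 :=
          Real.exp_le_one_iff.mpr (by
            have : 0 ≤ R / 2 * ‖MvPolynomial.eval x p‖ ^ 2 := by positivity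
            linarith)
        exact mul_le_of_le_one_left (norm_nonneg _) this
      rw [div_mul_eq_mul_div, one_mul]
      refine div_le_div_of_nonneg_right (h1.trans ?_) hR0.le
      exact mul_le_mul_of_nonneg_left h2 (hC l)
  exact Bd.of hgoal

theorem step2 (ψ : X5 → ℂ) (hψ : Test {x | MvPolynomial.eval x u ≠ 0} ψ) :
    Bd 2 (fun R => ‖Ser (fun k => (-((k : ℂ) + 1)) * mu p ψ k) R‖) := by
  obtain ⟨hB0, hB, hBk⟩ := Bpoly b hb0 hb
  obtain ⟨N, ψs, hψs, hrel, hzero⟩ := hm ψ hψ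
  have hU : IsOpen {x : X5 | MvPolynomial.eval x u ≠ 0} :=
    isOpen_ne_fun (MvPolynomial.continuous_eval u) continuous_const
  have hg := mu_GB hS p ψ hψ.1.continuous hψ.2.1
  have hgs : ∀ l, GB (mu p (ψs l)) := fun l =>
    mu_GB hS p (ψs l) (hψs l).1.continuous (hψs l).2.1
  have hga : GB (fun k => (-((k : ℂ) + 1)) * mu p ψ k) := by
    have h1 : GB (fun k : ℕ => -((k : ℂ) + 1)) := by
      have := (GB.const (-1)).mul (GB.nat.add (GB.const 1))
      simpa using this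
    exact h1.mul hg
  set Q : Polynomial ℂ := b * b.map (starRingEnd ℂ) with hQ
  have hQk : ∀ k : ℕ, Q.eval (k : ℂ) * ((-((k : ℂ) + 1)) * mu p ψ k) =
      ∑ l ∈ Finset.range N, -((k : ℂ) + 1)⁻¹ * ((k : ℂ) ^ l * mu p (ψs l) (k + 1)) := by
    intro k
    rw [← Finset.mul_sum, ← hrel k, hBk k]
    have hs := succ_ne k
    field_simp
  have hinv : GB (fun k : ℕ => -((k : ℂ) + 1)⁻¹) := by
    refine ⟨1, 1, zero_le_one, zero_le_one, fun k => ?_⟩
    rw [one_pow, mul_one, norm_neg, norm_inv]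
    have : ‖(k : ℂ) + 1‖ = (k : ℝ) + 1 := by
      have : (k : ℂ) + 1 = ((k + 1 : ℕ) : ℂ) := by push_cast; ring
      rw [this, Complex.norm_natCast]
      push_cast; ring
    rw [this]
    refine inv_le_one_of_one_le₀ ?_
    have : (0 : ℝ) ≤ k := Nat.cast_nonneg k
    linarith
  -- each term is small
  have hterm : ∀ l, Bd 1 (fun R => ‖Ser (fun n => ((n : ℂ) - 1) ^ l * mu p (ψs l) n) R‖) := by
    intro l
    obtain ⟨C, hC, hCb⟩ := serbound hS p ((Polynomial.X - 1) ^ l) (ψs l)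
      (hψs l).1.continuous (hψs l).2.1
    obtain ⟨θ, hθ1, hθ2, hθ3, hθ4, hθ5⟩ := bump hU (hψs l).2.1 (hψs l).2.2
    obtain ⟨M, hM⟩ := (hψs l).1.continuous.bounded_above_of_compact_support (hψs l).2.1
    have hM0 : 0 ≤ M := (norm_nonneg _).trans (hM 0)
    have hle : ∀ x, ‖ψs l x‖ ≤ M * θ x := by
      intro x
      by_cases hx : x ∈ tsupport (ψs l)
      · rw [hθ5 x hx, mul_one]; exact hM x
      · rw [image_eq_zero_of_notMem_tsupport hx, norm_zero]
        exact mul_nonneg hM0 (hθ4 x)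
    have hθc : Test {x | MvPolynomial.eval x u ≠ 0} (fun x => (θ x : ℂ)) := by
      refine ⟨Complex.ofRealCLM.contDiff.comp hθ1,
        hθ2.comp_left (g := fun y : ℝ => (y : ℂ)) Complex.ofReal_zero, ?_⟩
      refine (closure_mono ?_).trans hθ3
      intro x hx
      rw [Function.mem_support] at hx ⊢
      intro h
      exact hx (by simp [h])
    have hs1 := step1 hS hO p u b hb0 hb hm _ hθc
    have hh := halfbound hS p θ hθ1.continuous hθ2 hθ4 hs1
    refine Bd.mono (c := C * M) (by positivity) hh fun R hR => ?_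
    have hR0 : 0 ≤ R := by linarith
    have h1 := hCb R hR0
    have e1 : (fun k : ℕ => ((Polynomial.X - 1) ^ l : Polynomial ℂ).eval (k : ℂ) *
        mu p (ψs l) k) = fun n : ℕ => ((n : ℂ) - 1) ^ l * mu p (ψs l) n := by
      funext k; simp
    rw [e1] at h1
    refine h1.trans ?_
    rw [mul_assoc]
    refine mul_le_mul_of_nonneg_left ?_ hC
    rw [← integral_const_mul]
    refine integral_mono (integrable_expmul p (R / 2) (hψs l).1.continuous.norm (hψs l).2.1.norm)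
      ((integrable_expmul p (R / 2) hθ1.continuous hθ2).const_mul M) fun x => ?_
    have := mul_le_mul_of_nonneg_left (hle x)
      (Real.exp_pos (-(R / 2 * ‖MvPolynomial.eval x p‖ ^ 2))).le
    refine this.trans_eq ?_
    ring
  have hsum := Bd.sum (Finset.range N) _ (fun l _ => hterm l)
  have hgoal : ∃ (C : ℝ) (j : ℕ), ∀ R : ℝ, 2 ≤ R →
      ‖Ser (fun k => (-((k : ℂ) + 1)) * mu p ψ k) R‖ ≤ C * Real.log R ^ j / R ^ 2 := by
    refine hO _ 2 Q hB0 ?_ ?_ ?_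
    · intro ρ hρ
      have := hB ρ hρ
      push_cast
      linarith
    · obtain ⟨A, B, -, -, h⟩ := hga
      exact ⟨A, B, h⟩
    · obtain ⟨C, j, hC, h⟩ := hsum
      refine ⟨C, j, fun R hR => ?_⟩
      have hR0 : 0 < R := by linarith
      have e1 : Ser (fun k => Q.eval (k : ℂ) * ((-((k : ℂ) + 1)) * mu p ψ k)) R =
          1 / (R : ℂ) * ∑ l ∈ Finset.range N,
            Ser (fun n => ((n : ℂ) - 1) ^ l * mu p (ψs l) n) R := by
        have : (fun k : ℕ => Q.eval (k : ℂ) * ((-((k : ℂ) + 1)) * mu p ψ k)) =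
            fun k : ℕ => ∑ l ∈ Finset.range N,
              -((k : ℂ) + 1)⁻¹ * ((k : ℂ) ^ l * mu p (ψs l) (k + 1)) := by
          funext k; exact hQk k
        rw [this, Ser_sum _ _ (fun l _ => hinv.mul ((GB.nat.pow l).mul (hgs l).shift))]
        rw [Finset.sum_congr rfl fun l _ => Ser_shift2 (hgs l) l R hR0.ne', ← Finset.mul_sum,
          Finset.sum_sub_distrib, hzero, sub_zero]
      rw [e1, norm_mul, norm_div, norm_one, Complex.norm_real, Real.norm_eq_abs,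
        abs_of_pos hR0]
      have h1 := (norm_sum_le (Finset.range N)
        (fun l => Ser (fun n => ((n : ℂ) - 1) ^ l * mu p (ψs l) n) R)).trans (h R hR)
      rw [pow_one] at h1
      calc 1 / R * ‖∑ l ∈ Finset.range N, Ser (fun n => ((n : ℂ) - 1) ^ l * mu p (ψs l) n) R‖
          ≤ 1 / R * (C * Real.log R ^ j / R) := by gcongr
        _ = _ := by field_simp
  exact Bd.of hgoal

end

end CF55.Core51

namespace CF55

open Core51

theorem stmtCORE (hM : G_MOM) (hS : G_SER) (hO : G_ODE) : G_CORE := by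
  intro p hp
  obtain ⟨u, b, hu, hb0, hb, hm⟩ := hM p hp
  have hU : IsOpen {x : X5 | MvPolynomial.eval x u ≠ 0} :=
    isOpen_ne_fun (MvPolynomial.continuous_eval u) continuous_const
  obtain ⟨r, hr, hball⟩ := Metric.isOpen_iff.mp hU 0 hu
  refine ⟨r, hr, fun ψ hψ hc hs => ?_⟩
  have hψc : Test {x | MvPolynomial.eval x u ≠ 0} (fun x => (ψ x : ℂ)) := by
    refine ⟨Complex.ofRealCLM.contDiff.comp hψ,
      hc.comp_left (g := fun y : ℝ => (y : ℂ)) Complex.ofReal_zero, ?_⟩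
    refine (closure_mono ?_).trans (hs.trans hball)
    intro x hx
    rw [Function.mem_support] at hx ⊢
    intro h
    exact hx (by simp [h])
  have h1 := step1 hS hO p u b hb0 hb hm _ hψc
  have h2 := step2 hS hO p u b hb0 hb hm _ hψc
  obtain ⟨C, k, -, h⟩ := Bd.common h1 h2
  refine ⟨C, k, fun R hR => ?_⟩
  have h3 := h R hR
  rw [Ser_real0 hS p ψ hψ.continuous hc, Ser_real1 hS p ψ hψ.continuous hc, pow_one] at h3
  exact h3

end CF55
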